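import Mathlib
import Pool.Agent.V1162.TM.Names

set_option autoImplicit false

/-!
Subdividing one edge need not increase the treewidth threshold: the answer to Q1 is no.

`H` is the disjoint union of `t` triangles and a path. If `t` is large, then the threshold `f(H)`
exceeds `3 t + 1` already for a path with two vertices, because of graphs of large treewidth with
few disjoint cycles. But for a path with `m + 1` vertices and `m` large (for fixed `t`) the threshold
is at most `m + 3 t` (`forces_tp`). So when the path grows from two to `m + 1` vertices by subdividing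
its last edge again and again, the threshold does not always grow by one.
-/

namespace Pool.Agent.Results.MP_31fefb_co.SubdivisionFails

open Pool.Agent.V1162.TM Pool.Agent.TH507.Host

/-- **Q1 is false.** For every sufficiently large `t` there is a `j` such that, for the planar graph
`H` which is the disjoint union of `t` triangles and a path with `j + 2` vertices, and for `H'`
obtained from `H` by subdividing the last edge `uv` of the path once, both thresholds `f(H)` and
`f(H')` exist and `f(H') = f(H)`. -/
theorem result :
    ∃ t₀ : ℕ, ∀ t : ℕ, t₀ ≤ t → ∃ (j : ℕ) (u v : (Fin t × Fin 3) ⊕ Fin (j + 2)),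
      PlanarD (triPath t (j + 1)) ∧ (triPath t (j + 1)).Adj u v ∧
      (∃ k, Forces (triPath t (j + 1)) k) ∧
      (∃ k, Forces (subdivide (triPath t (j + 1)) u v) k) ∧
      thr (subdivide (triPath t (j + 1)) u v) = thr (triPath t (j + 1)) := by
  obtain ⟨t₀, h₀⟩ := exists_stall
  refine ⟨t₀, fun t ht => ?_⟩
  obtain ⟨j, hj, h⟩ := h₀ t ht
  obtain ⟨j, rfl⟩ : ∃ i, j = i + 1 := ⟨j - 1, by omega⟩
  refine ⟨j, eu t j, ev t j, ?_⟩
  rw [subdivide_eq, triPath_eq]
  refine ⟨tp_planar _ _, adj_euv _ _, exists_forces _ _, ?_, ?_⟩
  · obtain ⟨k, hk⟩ := exists_forces t (j + 2)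
    exact ⟨k, forces_congr (fun V G h => (subdiv_iff t j V G).2 h) hk⟩
  · rw [thr_congr (fun V G => subdiv_iff t j V G)]
    exact h

end Pool.Agent.Results.MP_31fefb_co.SubdivisionFails
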